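import Mathlib

set_option autoImplicit false

namespace Pool.Agent.Lead.Der

open IsLocalRing

/-- The socle `{m | 𝔪 m = 0}` of a module over a local ring. -/
def socle (A : Type) [CommRing A] [IsLocalRing A] (M : Type) [AddCommGroup M] [Module A M] :
    Submodule A M where
  carrier := {m | ∀ a ∈ maximalIdeal A, a • m = 0}
  add_mem' := by
    intro x y hx hy a ha
    rw [smul_add, hx a ha, hy a ha, add_zero]
  zero_mem' := by intro a _; exact smul_zero a
  smul_mem' := by
    intro c x hx a ha
    rw [smul_comm, hx a ha, smul_zero]

end Pool.Agent.Lead.Der
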