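import Mathlib
import Pool.Agent.Lead.Der.Defs

set_option autoImplicit false

namespace Pool.Agent.Lead.Der

open IsLocalRing

variable {k A : Type} [Field k] [CommRing A] [Algebra k A]

/-- The map `M → Der_k(A, M)`, `m ↦ (a ↦ E(a) m)`, for a derivation `E` of `A`. -/
noncomputable def eul (E : Derivation k A A) (M : Type) [AddCommGroup M] [Module A M] [Module k M]
    [IsScalarTower k A M] : M →ₗ[A] Derivation k A M where
  toFun m := (LinearMap.toSpanSingleton A M m).compDer E
  map_add' x y := by ext a; simp
  map_smul' c x := by ext a; simp [smul_comm c]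

theorem eul_apply (E : Derivation k A A) (M : Type) [AddCommGroup M] [Module A M] [Module k M]
    [IsScalarTower k A M] (m : M) (a : A) : eul E M m a = E a • m := by
  simp [eul]

theorem main_ineq [IsLocalRing A] (E : Derivation k A A)
    (hE : maximalIdeal A ≤ Ideal.span (Set.range E)) (M : Type) [AddCommGroup M] [Module A M]
    [Module k M] [IsScalarTower k A M] :
    Module.length A M ≤ Module.length A (Derivation k A M) + Module.length A (socle A M) := by
  have hker : LinearMap.ker (eul E M) ≤ socle A M := by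
    intro m hm a ha
    have h1 : ∀ b ∈ Ideal.span (Set.range E), b • m = 0 := by
      intro b hb
      induction hb using Submodule.span_induction with
      | mem x hx =>
        obtain ⟨c, rfl⟩ := hx
        have := congrArg (fun D : Derivation k A M => D c) (LinearMap.mem_ker.1 hm)
        simpa [eul_apply] using this
      | zero => exact zero_smul _ _
      | add x y _ _ hx hy => rw [add_smul, hx, hy, add_zero]
      | smul c x _ hx => rw [smul_assoc, hx, smul_zero]
    exact h1 a (hE ha)
  have h := Module.length_eq_add_of_exact (LinearMap.ker (eul E M)).subtype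
    (eul E M).rangeRestrict (Submodule.subtype_injective _) (LinearMap.surjective_rangeRestrict _)
    (by
      rw [LinearMap.exact_iff]
      simp)
  rw [h, add_comm]
  refine add_le_add ?_ ?_
  · exact Module.length_le_of_injective (LinearMap.range (eul E M)).subtype
      (Submodule.subtype_injective _)
  · exact Module.length_le_of_injective (Submodule.inclusion hker)
      (Submodule.inclusion_injective _)

/-- The Euler map of a grading: `a ↦ n a` for `a` homogeneous of degree `n`. -/
noncomputable def eulerMap (𝒜 : ℕ → Submodule k A) [GradedAlgebra 𝒜] : A →ₗ[k] A :=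
  (DirectSum.toModule k ℕ A (fun n => (n : k) • (𝒜 n).subtype)) ∘ₗ
    (DirectSum.decomposeLinearEquiv 𝒜).toLinearMap

theorem eulerMap_of_mem (𝒜 : ℕ → Submodule k A) [GradedAlgebra 𝒜] {n : ℕ} {a : A}
    (ha : a ∈ 𝒜 n) : eulerMap 𝒜 a = (n : k) • a := by
  simp only [eulerMap, LinearMap.comp_apply, LinearEquiv.coe_coe,
    DirectSum.decomposeLinearEquiv_apply]
  rw [DirectSum.decompose_of_mem 𝒜 ha]
  erw [DirectSum.toModule_lof]
  simp

theorem eulerMap_leibniz (𝒜 : ℕ → Submodule k A) [GradedAlgebra 𝒜] (a b : A) :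
    eulerMap 𝒜 (a * b) = a • eulerMap 𝒜 b + b • eulerMap 𝒜 a := by
  induction a using DirectSum.Decomposition.inductionOn 𝒜 with
  | zero => simp
  | @homogeneous i a =>
    induction b using DirectSum.Decomposition.inductionOn 𝒜 with
    | zero => simp
    | @homogeneous j b =>
      rw [eulerMap_of_mem 𝒜 (SetLike.mul_mem_graded a.2 b.2), eulerMap_of_mem 𝒜 a.2,
        eulerMap_of_mem 𝒜 b.2]
      push_cast
      simp only [smul_eq_mul, Algebra.smul_def, map_add, map_natCast]
      ring
    | add b b' hb hb' =>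
      rw [mul_add, map_add, map_add, hb, hb']
      simp only [smul_eq_mul]
      ring
  | add a a' ha ha' =>
    rw [add_mul, map_add, map_add, ha, ha']
    simp only [smul_eq_mul]
    ring

/-- The Euler derivation of a grading. -/
noncomputable def euler (𝒜 : ℕ → Submodule k A) [GradedAlgebra 𝒜] : Derivation k A A :=
  Derivation.mk' (eulerMap 𝒜) (eulerMap_leibniz 𝒜)

theorem pos_mem_max [IsLocalRing A] [Module.Finite k A] (𝒜 : ℕ → Submodule k A)
    [GradedAlgebra 𝒜] {n : ℕ} (hn : 0 < n) {a : A} (ha : a ∈ 𝒜 n) : a ∈ maximalIdeal A := by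
  have hfin : {m : ℕ | 𝒜 m ≠ ⊥}.Finite :=
    WellFoundedGT.finite_ne_bot_of_iSupIndep
      (DirectSum.Decomposition.isInternal 𝒜).submodule_iSupIndep
  have hnil : ∃ m : ℕ, a ^ m = 0 := by
    by_contra hno
    push Not at hno
    have hinf : (Set.range (fun m : ℕ => m * n)).Infinite :=
      Set.infinite_range_of_injective (fun x y h => Nat.eq_of_mul_eq_mul_right hn h)
    apply hinf
    refine hfin.subset ?_
    rintro _ ⟨m, rfl⟩ hbot
    have h1 : a ^ m ∈ 𝒜 (m • n) := SetLike.pow_mem_graded m ha
    rw [smul_eq_mul, hbot] at h1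
    exact hno m (by simpa using h1)
  obtain ⟨m, hm⟩ := hnil
  rw [mem_maximalIdeal, mem_nonunits_iff]
  intro hu
  have := hu.pow m
  rw [hm] at this
  exact not_isUnit_zero this

theorem max_le_span [CharZero k] [IsLocalRing A] [Module.Finite k A] (𝒜 : ℕ → Submodule k A)
    [GradedAlgebra 𝒜] (h0 : ∀ a ∈ 𝒜 0, ∃ c : k, a = algebraMap k A c) :
    maximalIdeal A ≤ Ideal.span (Set.range (euler 𝒜)) := by
  classical
  have hpos : ∀ n : ℕ, 0 < n → ∀ a ∈ 𝒜 n, a ∈ Ideal.span (Set.range (euler 𝒜)) := by
    intro n hn a ha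
    have hE : euler 𝒜 a = (n : k) • a := eulerMap_of_mem 𝒜 ha
    have : a = algebraMap k A ((n : k)⁻¹) * euler 𝒜 a := by
      rw [hE, ← Algebra.smul_def, smul_smul, inv_mul_cancel₀ (by exact_mod_cast hn.ne'), one_smul]
    rw [this]
    exact Ideal.mul_mem_left _ _ (Ideal.subset_span ⟨a, rfl⟩)
  have key : ∀ a : A, ∃ c : k, a - algebraMap k A c ∈ Ideal.span (Set.range (euler 𝒜)) ∧
      a - algebraMap k A c ∈ maximalIdeal A := by
    intro a
    induction a using DirectSum.Decomposition.inductionOn 𝒜 with
    | zero => exact ⟨0, by simp, by simp⟩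
    | @homogeneous i a =>
      rcases Nat.eq_zero_or_pos i with hi | hi
      · subst hi
        obtain ⟨c, hc⟩ := h0 a a.2
        exact ⟨c, by rw [hc]; simp, by rw [hc]; simp⟩
      · refine ⟨0, ?_, ?_⟩
        · rw [map_zero, sub_zero]; exact hpos i hi a a.2
        · rw [map_zero, sub_zero]; exact pos_mem_max 𝒜 hi a.2
    | add a b ha hb =>
      obtain ⟨c, h1, h2⟩ := ha
      obtain ⟨d, h3, h4⟩ := hb
      refine ⟨c + d, ?_, ?_⟩
      · rw [map_add, add_sub_add_comm]; exact add_mem h1 h3
      · rw [map_add, add_sub_add_comm]; exact add_mem h2 h4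
  intro a ha
  obtain ⟨c, h1, h2⟩ := key a
  have hc : algebraMap k A c ∈ maximalIdeal A := by
    have := sub_mem ha h2
    simpa using this
  have hc0 : c = 0 := by
    by_contra hne
    rw [mem_maximalIdeal, mem_nonunits_iff] at hc
    exact hc ((isUnit_iff_ne_zero.2 hne).map _)
  rw [hc0, map_zero, sub_zero] at h1
  exact h1

end Pool.Agent.Lead.Der
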