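import Mathlib
import Pool.Agent.Lead.Der.Eul

set_option autoImplicit false

namespace Pool.Agent.Lead.Der

open IsLocalRing

theorem ker_le_socle {k A : Type} [Field k] [CommRing A] [Algebra k A] [IsLocalRing A]
    (E : Derivation k A A) (hE : maximalIdeal A ≤ Ideal.span (Set.range E))
    (M : Type) [AddCommGroup M] [Module A M] [Module k M] [IsScalarTower k A M] :
    LinearMap.ker (eul E M) ≤ socle A M := by
  intro m hm a ha
  have h1 : ∀ b ∈ Ideal.span (Set.range E), b • m = 0 := by
    intro b hb
    induction hb using Submodule.span_induction with
    | mem x hx =>
      obtain ⟨c, rfl⟩ := hx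
      have := congrArg (fun D : Derivation k A M => D c) (LinearMap.mem_ker.1 hm)
      simpa [eul_apply] using this
    | zero => exact zero_smul _ _
    | add x y _ _ hx hy => rw [add_smul, hx, hy, add_zero]
    | smul c x _ hx => rw [smul_assoc, hx, smul_zero]
  exact h1 a (hE ha)

/-- P1 -/
theorem surj_of_eq {k A : Type} [Field k] [CommRing A] [Algebra k A] [IsLocalRing A]
    [Module.Finite k A] (E : Derivation k A A) (hE : maximalIdeal A ≤ Ideal.span (Set.range E))
    (M : Type) [AddCommGroup M] [Module A M] [Module k M] [IsScalarTower k A M] [Module.Finite A M]
    (h : Module.length A M = Module.length A (Derivation k A M) + Module.length A (socle A M)) :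
    Function.Surjective (eul E M) := by
  have : IsArtinianRing A := IsArtinianRing.of_finite k A
  have hMfin : Module.length A M ≠ ⊤ := Module.length_ne_top
  have hker := ker_le_socle E hE M
  have hex := Module.length_eq_add_of_exact (LinearMap.ker (eul E M)).subtype
    (eul E M).rangeRestrict (Submodule.subtype_injective _) (LinearMap.surjective_rangeRestrict _)
    (by
      rw [LinearMap.exact_iff]
      simp)
  have hle : Module.length A (LinearMap.ker (eul E M)) ≤ Module.length A (socle A M) :=
    Module.length_le_of_injective (Submodule.inclusion hker) (Submodule.inclusion_injective _)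
  have hsum : Module.length A (Derivation k A M) + Module.length A (socle A M) ≠ ⊤ := by
    rw [← h]; exact hMfin
  have hD : Module.length A (Derivation k A M) ≠ ⊤ := fun hh => hsum (by rw [hh]; exact top_add _)
  have hS : Module.length A (socle A M) ≠ ⊤ := fun hh => hsum (by rw [hh]; exact add_top _)
  have hfl := Module.length_ne_top_iff.1 hD
  rw [isFiniteLength_iff_isNoetherian_isArtinian] at hfl
  obtain ⟨hN, hAr⟩ := hfl
  rw [← LinearMap.range_eq_top]
  by_contra hne
  have hlt : Module.length A (LinearMap.range (eul E M)) < Module.length A (Derivation k A M) :=
    Submodule.length_lt hne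
  have h1 : Module.length A M < Module.length A M := by
    calc Module.length A M = Module.length A (LinearMap.ker (eul E M)) +
          Module.length A (LinearMap.range (eul E M)) := hex
      _ ≤ Module.length A (socle A M) + Module.length A (LinearMap.range (eul E M)) :=
          add_le_add hle le_rfl
      _ < Module.length A (socle A M) + Module.length A (Derivation k A M) :=
          (ENat.add_lt_add_iff_left hS).2 hlt
      _ = Module.length A M := by rw [h, add_comm]
  exact lt_irrefl _ h1

end Pool.Agent.Lead.Der
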