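import Mathlib
import Pool.Agent.Lead.Der.Eul
set_option autoImplicit false
namespace Pool.Agent.Lead.Der
open IsLocalRing

/-- P2a -/
theorem no_pair {k A : Type} [Field k] [CharZero k] [CommRing A] [Algebra k A] [IsLocalRing A]
    (𝒜 : ℕ → Submodule k A) [GradedAlgebra 𝒜] (h0 : ∀ a ∈ 𝒜 0, ∃ c : k, a = algebraMap k A c)
    (hpos : ∀ n, 0 < n → ∀ a ∈ 𝒜 n, a ∈ maximalIdeal A)
    (M : Type) [AddCommGroup M] [Module A M] [Module k M] [IsScalarTower k A M]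
    (hsurj : Function.Surjective (eul (euler 𝒜) M)) (s : M) (hs : s ∈ socle A M) (hs0 : s ≠ 0)
    (w₁ w₂ : ℕ) (hw₁ : 0 < w₁) (hw₂ : 0 < w₂) (x₁ x₂ : A) (hx₁ : x₁ ∈ 𝒜 w₁) (hx₂ : x₂ ∈ 𝒜 w₂)
    (f₁ f₂ : A →ₗ[k] k) (h₁ : ∀ a ∈ maximalIdeal A, ∀ b ∈ maximalIdeal A, f₁ (a * b) = 0)
    (h₂ : ∀ a ∈ maximalIdeal A, ∀ b ∈ maximalIdeal A, f₂ (a * b) = 0)
    (h₃ : ∀ n, n ≠ w₁ → ∀ a ∈ 𝒜 n, f₁ a = 0) (h₄ : ∀ n, n ≠ w₂ → ∀ a ∈ 𝒜 n, f₂ a = 0)
    (h11 : f₁ x₁ = 1) (h12 : f₁ x₂ = 0) (h21 : f₂ x₁ = 0) (h22 : f₂ x₂ = 1) : False := by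
  classical
  have hw1k : (w₁ : k) ≠ 0 := by exact_mod_cast hw₁.ne'
  have hw2k : (w₂ : k) ≠ 0 := by exact_mod_cast hw₂.ne'
  have hEul : ∀ n, ∀ a ∈ 𝒜 n, euler 𝒜 a = (n:k) • a := fun n a ha => eulerMap_of_mem 𝒜 ha
  have hsz : ∀ a ∈ maximalIdeal A, a • s = 0 := hs
  have mk : ∀ (g : A →ₗ[k] M), (∀ a b, g (a*b) = a • g b + b • g a) →
      ∃ m : M, ∀ a, euler 𝒜 a • m = g a := by
    intro g hg
    obtain ⟨m, hm⟩ := hsurj (Derivation.mk' g hg)
    exact ⟨m, fun a => by rw [← eul_apply, hm]; rfl⟩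
  have h1mem : (1 : A) ∈ 𝒜 0 := SetLike.GradedOne.one_mem
  have hf1 : f₁ 1 = 0 := h₃ 0 hw₁.ne _ h1mem
  have hf2 : f₂ 1 = 0 := h₄ 0 hw₂.ne _ h1mem
  have hf : ∀ (f : A →ₗ[k] k), (∀ a ∈ maximalIdeal A, ∀ b ∈ maximalIdeal A, f (a * b) = 0) →
      f 1 = 0 → ∀ (a b : A) (c d : k), a - algebraMap k A c ∈ maximalIdeal A →
      b - algebraMap k A d ∈ maximalIdeal A → f (a*b) = c * f b + d * f a := by
    intro f hm h1 a b c d ha hb
    have h := hm _ ha _ hb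
    have e : (a - algebraMap k A c) * (b - algebraMap k A d) =
        a*b - c • b - d • a + (c*d) • (1 : A) := by
      simp only [Algebra.smul_def, map_mul]; ring
    rw [e, map_add, map_sub, map_sub, map_smul, map_smul, map_smul, h1] at h
    simp only [smul_eq_mul, mul_zero, add_zero] at h
    linear_combination h
  have key0 : ∀ a : A, ∃ c : k, a - algebraMap k A c ∈ maximalIdeal A := by
    intro a
    induction a using DirectSum.Decomposition.inductionOn 𝒜 with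
    | zero => exact ⟨0, by simp⟩
    | @homogeneous i a =>
      rcases Nat.eq_zero_or_pos i with hi | hi
      · subst hi
        obtain ⟨c, hc⟩ := h0 a a.2
        exact ⟨c, by rw [hc]; simp⟩
      · refine ⟨0, ?_⟩
        rw [map_zero, sub_zero]; exact hpos i hi a a.2
    | add a b ha hb =>
      obtain ⟨c, h2⟩ := ha
      obtain ⟨d, h4⟩ := hb
      refine ⟨c + d, ?_⟩
      rw [map_add, add_sub_add_comm]; exact add_mem h2 h4
  have has : ∀ (a : A) (c : k), a - algebraMap k A c ∈ maximalIdeal A → a • s = c • s := by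
    intro a c h
    have := hsz _ h
    rw [sub_smul, algebraMap_smul, sub_eq_zero] at this
    exact this
  have hD : ∀ (f : A →ₗ[k] k), (∀ a ∈ maximalIdeal A, ∀ b ∈ maximalIdeal A, f (a * b) = 0) →
      f 1 = 0 → ∃ m : M, ∀ a, euler 𝒜 a • m = f a • s := by
    intro f hm h1
    refine mk (f.smulRight s) ?_
    intro a b
    obtain ⟨c, hc⟩ := key0 a
    obtain ⟨d, hd⟩ := key0 b
    simp only [LinearMap.smulRight_apply]
    rw [hf f hm h1 a b c d hc hd, smul_comm a (f b) s, smul_comm b (f a) s, has a c hc, has b d hd,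
      smul_smul, smul_smul, ← add_smul]
    congr 1; ring
  obtain ⟨m₁, hm₁⟩ := hD f₁ h₁ hf1
  obtain ⟨m₂, hm₂⟩ := hD f₂ h₂ hf2
  -- homogeneous of positive degree
  have hom : ∀ (f : A →ₗ[k] k) (w : ℕ) (m : M), 0 < w → (∀ n, n ≠ w → ∀ a ∈ 𝒜 n, f a = 0) →
      (∀ a, euler 𝒜 a • m = f a • s) → ∀ i, 0 < i → ∀ a ∈ 𝒜 i, (w:k) • (a • m) = f a • s := by
    intro f w m hw hz hm i hi a ha
    have h := hm a
    rw [hEul i a ha, smul_assoc] at h
    by_cases hiw : i = w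
    · subst hiw; exact h
    · rw [hz i hiw a ha, zero_smul] at h ⊢
      have hik : (i : k) ≠ 0 := by exact_mod_cast hi.ne'
      rw [(smul_eq_zero.1 h).resolve_left hik, smul_zero]
  have key : ∀ a : A, ∃ c : k, a - algebraMap k A c ∈ maximalIdeal A ∧
      (w₁:k) • ((a - algebraMap k A c) • m₁) = f₁ a • s ∧
      (w₂:k) • ((a - algebraMap k A c) • m₂) = f₂ a • s := by
    intro a
    induction a using DirectSum.Decomposition.inductionOn 𝒜 with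
    | zero => exact ⟨0, by simp, by simp, by simp⟩
    | @homogeneous i a =>
      rcases Nat.eq_zero_or_pos i with hi | hi
      · subst hi
        obtain ⟨c, hc⟩ := h0 a a.2
        have e1 : f₁ (a : A) = 0 := h₃ 0 hw₁.ne _ a.2
        have e2 : f₂ (a : A) = 0 := h₄ 0 hw₂.ne _ a.2
        refine ⟨c, by rw [hc]; simp, ?_, ?_⟩
        · rw [e1, ← hc]; simp
        · rw [e2, ← hc]; simp
      · refine ⟨0, ?_, ?_, ?_⟩
        · rw [map_zero, sub_zero]; exact hpos i hi a a.2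
        · rw [map_zero, sub_zero]; exact hom f₁ w₁ m₁ hw₁ h₃ hm₁ i hi a a.2
        · rw [map_zero, sub_zero]; exact hom f₂ w₂ m₂ hw₂ h₄ hm₂ i hi a a.2
    | add a b ha hb =>
      obtain ⟨c, h2, h5, h7⟩ := ha
      obtain ⟨d, h4, h6, h8⟩ := hb
      refine ⟨c + d, ?_, ?_, ?_⟩
      · rw [map_add, add_sub_add_comm]; exact add_mem h2 h4
      · rw [map_add, add_sub_add_comm, add_smul, smul_add, h5, h6, map_add, add_smul]
      · rw [map_add, add_sub_add_comm, add_smul, smul_add, h7, h8, map_add, add_smul]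
  -- the third derivation
  obtain ⟨m, hm⟩ : ∃ m : M, ∀ a, euler 𝒜 a • m =
      ((w₂:k) • f₁.smulRight m₂ - (w₁:k) • f₂.smulRight m₁ : A →ₗ[k] M) a := by
    refine mk _ ?_
    intro a b
    obtain ⟨c, hc, hc1, hc2⟩ := key a
    obtain ⟨d, hd, hd1, hd2⟩ := key b
    simp only [LinearMap.sub_apply, LinearMap.smul_apply, LinearMap.smulRight_apply]
    rw [hf f₁ h₁ hf1 a b c d hc hd, hf f₂ h₂ hf2 a b c d hc hd]
    rw [sub_smul, algebraMap_smul, smul_sub, sub_eq_iff_eq_add] at hc1 hc2 hd1 hd2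
    have e1 : a • ((w₂:k) • f₁ b • m₂) = f₁ b • (f₂ a • s + (w₂:k) • c • m₂) := by
      rw [← hc2, smul_comm a (w₂:k), smul_comm a (f₁ b), smul_comm (w₂:k) (f₁ b)]
    have e2 : a • ((w₁:k) • f₂ b • m₁) = f₂ b • (f₁ a • s + (w₁:k) • c • m₁) := by
      rw [← hc1, smul_comm a (w₁:k), smul_comm a (f₂ b), smul_comm (w₁:k) (f₂ b)]
    have e3 : b • ((w₂:k) • f₁ a • m₂) = f₁ a • (f₂ b • s + (w₂:k) • d • m₂) := by
      rw [← hd2, smul_comm b (w₂:k), smul_comm b (f₁ a), smul_comm (w₂:k) (f₁ a)]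
    have e4 : b • ((w₁:k) • f₂ a • m₁) = f₂ a • (f₁ b • s + (w₁:k) • d • m₁) := by
      rw [← hd1, smul_comm b (w₁:k), smul_comm b (f₂ a), smul_comm (w₁:k) (f₂ a)]
    rw [smul_sub, smul_sub, e1, e2, e3, e4]
    module
  have q1 := hm x₁
  have q2 := hm x₂
  simp only [LinearMap.sub_apply, LinearMap.smul_apply, LinearMap.smulRight_apply] at q1 q2
  rw [hEul _ _ hx₁, h11, h21, smul_assoc, one_smul, zero_smul, smul_zero, sub_zero] at q1
  rw [hEul _ _ hx₂, h12, h22, smul_assoc, one_smul, zero_smul, smul_zero, zero_sub] at q2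
  have r1 := hom f₁ w₁ m₁ hw₁ h₃ hm₁ w₁ hw₁ x₁ hx₁
  have r2 := hom f₂ w₂ m₂ hw₂ h₄ hm₂ w₂ hw₂ x₂ hx₂
  rw [h11, one_smul] at r1
  rw [h22, one_smul] at r2
  -- w₁ x₂ x₁ m = w₂ x₂ m₂ = s ; w₂ x₁ x₂ m = - w₁ x₁ m₁ = - s
  have t1 : (w₁:k) • ((x₂ * x₁) • m) = s := by
    have := congrArg (fun z => x₂ • z) q1
    rw [smul_comm x₂ (w₁:k), smul_comm x₂ (w₂:k), r2, smul_smul] at this
    exact this
  have t2 : (w₂:k) • ((x₂ * x₁) • m) = -s := by
    have := congrArg (fun z => x₁ • z) q2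
    rw [smul_comm x₁ (w₂:k), smul_neg, smul_comm x₁ (w₁:k), r1, smul_smul, mul_comm] at this
    exact this
  have t3 : ((w₁:k) + w₂) • ((x₂ * x₁) • m) = 0 := by rw [add_smul, t1, t2]; simp
  have hsum : ((w₁:k) + w₂) ≠ 0 := by
    have : ((w₁ + w₂ : ℕ) : k) ≠ 0 := by exact_mod_cast (by omega : w₁ + w₂ ≠ 0)
    push_cast at this; exact this
  have t4 := (smul_eq_zero.1 t3).resolve_left hsum
  rw [t4, smul_zero] at t1
  exact hs0 t1.symm

end Pool.Agent.Lead.Der
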