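import Mathlib

set_option autoImplicit false

namespace Pool.Agent.Lead.Der

open IsLocalRing

theorem max_homog {k A : Type} [Field k] [CommRing A] [Algebra k A] [IsLocalRing A]
    (𝒜 : ℕ → Submodule k A) [GradedAlgebra 𝒜]
    (hpos : ∀ n, 0 < n → ∀ a ∈ 𝒜 n, a ∈ maximalIdeal A) :
    (maximalIdeal A).IsHomogeneous 𝒜 := by
  classical
  have key : ∀ a : A, a - (DirectSum.decompose 𝒜 a 0 : A) ∈ maximalIdeal A := by
    intro a
    induction a using DirectSum.Decomposition.inductionOn 𝒜 with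
    | zero => simp
    | @homogeneous i a =>
      by_cases hi : i = 0
      · subst hi
        rw [DirectSum.decompose_of_mem_same 𝒜 a.2, sub_self]
        exact Ideal.zero_mem _
      · rw [DirectSum.decompose_of_mem_ne 𝒜 a.2 hi, sub_zero]
        exact hpos i (Nat.pos_of_ne_zero hi) a a.2
    | add a b ha hb =>
      rw [DirectSum.decompose_add, DirectSum.add_apply, Submodule.coe_add, add_sub_add_comm]
      exact Ideal.add_mem _ ha hb
  intro i a ha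
  by_cases hi : i = 0
  · subst hi
    have h1 := Ideal.sub_mem _ ha (key a)
    rwa [sub_sub_cancel] at h1
  · exact hpos i (Nat.pos_of_ne_zero hi) _ (DirectSum.decompose 𝒜 a i).2

/-- P2b -/
theorem exists_pair {k A : Type} [Field k] [CommRing A] [Algebra k A] [IsLocalRing A]
    [Module.Finite k A] (𝒜 : ℕ → Submodule k A) [GradedAlgebra 𝒜]
    (h0 : ∀ a ∈ 𝒜 0, ∃ c : k, a = algebraMap k A c)
    (hpos : ∀ n, 0 < n → ∀ a ∈ 𝒜 n, a ∈ maximalIdeal A) :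
    (∃ w : ℕ, 0 < w ∧ ∃ x ∈ 𝒜 w, maximalIdeal A = Ideal.span {x}) ∨
    ∃ (w₁ w₂ : ℕ) (x₁ x₂ : A) (f₁ f₂ : A →ₗ[k] k), 0 < w₁ ∧ 0 < w₂ ∧ x₁ ∈ 𝒜 w₁ ∧ x₂ ∈ 𝒜 w₂ ∧
      (∀ a ∈ maximalIdeal A, ∀ b ∈ maximalIdeal A, f₁ (a * b) = 0) ∧
      (∀ a ∈ maximalIdeal A, ∀ b ∈ maximalIdeal A, f₂ (a * b) = 0) ∧
      (∀ n, n ≠ w₁ → ∀ a ∈ 𝒜 n, f₁ a = 0) ∧ (∀ n, n ≠ w₂ → ∀ a ∈ 𝒜 n, f₂ a = 0) ∧
      f₁ x₁ = 1 ∧ f₁ x₂ = 0 ∧ f₂ x₁ = 0 ∧ f₂ x₂ = 1 := by
  classical
  have hhom := max_homog 𝒜 hpos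
  have hhom2 : (maximalIdeal A * maximalIdeal A).IsHomogeneous 𝒜 := hhom.mul hhom
  let Q : Submodule k A := (maximalIdeal A * maximalIdeal A).restrictScalars k
  have hQ : ∀ a ∈ maximalIdeal A, ∀ b ∈ maximalIdeal A, ∀ n,
      (DirectSum.decompose 𝒜 (a * b) n : A) ∈ Q := fun a ha b hb n =>
    hhom2 n (Ideal.mul_mem_mul ha hb)
  by_cases hcase : ∃ w : ℕ, 0 < w ∧ ∃ x ∈ 𝒜 w, ∀ v : ℕ, 0 < v → ∀ y ∈ 𝒜 v,
      y ∈ Submodule.span k {x} ⊔ Q
  · left
    obtain ⟨w, hw, x, hx, hall⟩ := hcase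
    refine ⟨w, hw, x, hx, le_antisymm ?_ ?_⟩
    · have : IsArtinianRing A := IsArtinianRing.of_finite k A
      have hfg : (maximalIdeal A).FG := IsNoetherian.noetherian _
      refine Submodule.le_of_le_smul_of_le_jacobson_bot hfg
        (IsLocalRing.maximalIdeal_le_jacobson ⊥) ?_
      intro a ha
      rw [← DirectSum.sum_support_decompose 𝒜 a]
      refine Submodule.sum_mem _ fun i _ => ?_
      have hai := hhom i ha
      by_cases hi : i = 0
      · subst hi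
        obtain ⟨c, hc⟩ := h0 _ (DirectSum.decompose 𝒜 a 0).2
        by_cases hc0 : c = 0
        · rw [hc, hc0, map_zero]; exact Submodule.zero_mem _
        · exfalso
          rw [hc] at hai
          exact (mem_nonunits_iff.1 ((mem_maximalIdeal _).1 hai))
            ((IsUnit.mk0 c hc0).map (algebraMap k A))
      · have h1 := hall i (Nat.pos_of_ne_zero hi) _ (DirectSum.decompose 𝒜 a i).2
        obtain ⟨u, hu, v, hv, huv⟩ := Submodule.mem_sup.1 h1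
        rw [← huv]
        refine Submodule.mem_sup.2 ⟨u, ?_, v, hv, rfl⟩
        obtain ⟨c, rfl⟩ := Submodule.mem_span_singleton.1 hu
        rw [Algebra.smul_def]
        exact Ideal.mul_mem_left _ _ (Ideal.mem_span_singleton_self x)
    · rw [Ideal.span_le, Set.singleton_subset_iff]
      exact hpos w hw x hx
  · right
    push Not at hcase
    obtain ⟨w₁, hw₁, y₁, hy₁, hn₁⟩ := hcase 1 one_pos 0 (Submodule.zero_mem _)
    obtain ⟨w₂, hw₂, y₂, hy₂, hn₂⟩ := hcase w₁ hw₁ y₁ hy₁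
    have hy1Q : y₁ ∉ Q := by simpa using hn₁
    have hn₁' : y₁ ∉ Submodule.span k {y₂} ⊔ Q := by
      intro h
      obtain ⟨u, hu, v, hv, huv⟩ := Submodule.mem_sup.1 h
      obtain ⟨c, rfl⟩ := Submodule.mem_span_singleton.1 hu
      by_cases hc : c = 0
      · rw [hc, zero_smul, zero_add] at huv
        exact hy1Q (huv ▸ hv)
      · apply hn₂
        refine Submodule.mem_sup.2 ⟨c⁻¹ • y₁, Submodule.smul_mem _ _
          (Submodule.mem_span_singleton_self y₁), -(c⁻¹ • v), Submodule.neg_mem _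
          (Submodule.smul_mem _ _ hv), ?_⟩
        rw [← huv, smul_add, smul_smul, inv_mul_cancel₀ hc, one_smul]
        abel
    obtain ⟨g₁, hg₁, hg₁'⟩ := Submodule.exists_le_ker_of_notMem hn₁'
    obtain ⟨g₂, hg₂, hg₂'⟩ := Submodule.exists_le_ker_of_notMem hn₂
    have hQ1 : ∀ v ∈ Q, g₁ v = 0 := fun v hv => LinearMap.mem_ker.1 (hg₁' (Submodule.mem_sup_right hv))
    have hQ2 : ∀ v ∈ Q, g₂ v = 0 := fun v hv => LinearMap.mem_ker.1 (hg₂' (Submodule.mem_sup_right hv))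
    have h12 : g₁ y₂ = 0 := LinearMap.mem_ker.1
      (hg₁' (Submodule.mem_sup_left (Submodule.mem_span_singleton_self y₂)))
    have h21 : g₂ y₁ = 0 := LinearMap.mem_ker.1
      (hg₂' (Submodule.mem_sup_left (Submodule.mem_span_singleton_self y₁)))
    have hp : ∀ (g : A →ₗ[k] k) (w : ℕ) (a : A),
        (((g y₁)⁻¹ • g) ∘ₗ (GradedAlgebra.proj 𝒜 w)) a =
          (g y₁)⁻¹ * g (DirectSum.decompose 𝒜 a w : A) := by
      intro g w a
      simp [GradedAlgebra.proj_apply]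
    have hp2 : ∀ (g : A →ₗ[k] k) (w : ℕ) (a : A),
        (((g y₂)⁻¹ • g) ∘ₗ (GradedAlgebra.proj 𝒜 w)) a =
          (g y₂)⁻¹ * g (DirectSum.decompose 𝒜 a w : A) := by
      intro g w a
      simp [GradedAlgebra.proj_apply]
    refine ⟨w₁, w₂, y₁, y₂, ((g₁ y₁)⁻¹ • g₁) ∘ₗ (GradedAlgebra.proj 𝒜 w₁),
      ((g₂ y₂)⁻¹ • g₂) ∘ₗ (GradedAlgebra.proj 𝒜 w₂), hw₁, hw₂, hy₁, hy₂, ?_, ?_, ?_, ?_, ?_, ?_,
      ?_, ?_⟩
    · intro a ha b hb
      rw [hp, hQ1 _ (hQ a ha b hb w₁), mul_zero]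
    · intro a ha b hb
      rw [hp2, hQ2 _ (hQ a ha b hb w₂), mul_zero]
    · intro n hn a ha
      rw [hp, DirectSum.decompose_of_mem_ne 𝒜 ha hn, map_zero, mul_zero]
    · intro n hn a ha
      rw [hp2, DirectSum.decompose_of_mem_ne 𝒜 ha hn, map_zero, mul_zero]
    · rw [hp, DirectSum.decompose_of_mem_same 𝒜 hy₁, inv_mul_cancel₀ hg₁]
    · rw [hp]
      by_cases hw : w₂ = w₁
      · subst hw
        rw [DirectSum.decompose_of_mem_same 𝒜 hy₂, h12, mul_zero]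
      · rw [DirectSum.decompose_of_mem_ne 𝒜 hy₂ hw, map_zero, mul_zero]
    · rw [hp2]
      by_cases hw : w₁ = w₂
      · subst hw
        rw [DirectSum.decompose_of_mem_same 𝒜 hy₁, h21, mul_zero]
      · rw [DirectSum.decompose_of_mem_ne 𝒜 hy₁ hw, map_zero, mul_zero]
    · rw [hp2, DirectSum.decompose_of_mem_same 𝒜 hy₂, inv_mul_cancel₀ hg₂]

end Pool.Agent.Lead.Der
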