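import Mathlib
import Pool.Agent.Lead.Der.Eul

set_option autoImplicit false

namespace Pool.Agent.Lead.Der

open IsLocalRing Polynomial

/-- P3a -/
theorem exists_der {k A : Type} [Field k] [CommRing A] [Algebra k A] [IsLocalRing A]
    [Module.Finite k A] (hres : ∀ a : A, ∃ c : k, a - algebraMap k A c ∈ maximalIdeal A) (x : A)
    (hx : maximalIdeal A = Ideal.span {x}) (n : ℕ) (hn : x ^ (n + 1) = 0) (hn' : x ^ n ≠ 0)
    (M : Type) [AddCommGroup M] [Module A M] [Module k M] [IsScalarTower k A M] (y : M)
    (hy : x ^ n • y = 0) : ∃ D : Derivation k A M, D x = y := by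
  classical
  have hxm : x ∈ maximalIdeal A := by rw [hx]; exact Ideal.mem_span_singleton_self x
  -- surjectivity
  have hs : ∀ (a : A) (j : ℕ), ∃ (p : k[X]) (b : A), a - aeval x p = x ^ j * b := by
    intro a j
    induction j with
    | zero => exact ⟨0, a, by simp⟩
    | succ j ih =>
      obtain ⟨p, b, hpb⟩ := ih
      obtain ⟨c, hc⟩ := hres b
      rw [hx, Ideal.mem_span_singleton'] at hc
      obtain ⟨b', hb'⟩ := hc
      refine ⟨p + C c * X ^ j, b', ?_⟩
      have e : aeval x (C c * X ^ j : k[X]) = algebraMap k A c * x ^ j := by simp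
      rw [map_add, e]
      have : b = b' * x + algebraMap k A c := by rw [hb']; ring
      calc a - (aeval x p + algebraMap k A c * x ^ j)
          = (a - aeval x p) - algebraMap k A c * x ^ j := by ring
        _ = x ^ j * (b' * x + algebraMap k A c) - algebraMap k A c * x ^ j := by rw [hpb, this]
        _ = x ^ (j + 1) * b' := by ring
  have hsurj : ∀ a : A, ∃ p : k[X], aeval x p = a := by
    intro a
    obtain ⟨p, b, h⟩ := hs a (n + 1)
    rw [hn, zero_mul, sub_eq_zero] at h
    exact ⟨p, h.symm⟩
  -- kernel
  have hker : ∀ p : k[X], aeval x p = 0 → aeval x (derivative p) • y = 0 := by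
    intro p hp
    by_cases hp0 : p = 0
    · rw [hp0]; simp
    obtain ⟨q, hq, hnd⟩ := exists_eq_pow_rootMultiplicity_mul_and_not_dvd p hp0 0
    set m := p.rootMultiplicity 0 with hm
    rw [C_0, sub_zero] at hq hnd
    have hq0 : q.coeff 0 ≠ 0 := by
      intro h
      exact hnd (X_dvd_iff.2 h)
    have hu : IsUnit (aeval x q) := by
      by_contra hnu
      have h1 : aeval x q ∈ maximalIdeal A := (mem_maximalIdeal _).2 hnu
      have h2 : aeval x q - algebraMap k A (q.coeff 0) ∈ maximalIdeal A := by
        have h3 : (X : k[X]) ∣ q - C (q.coeff 0) := X_dvd_iff.2 (by simp)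
        obtain ⟨r, hr⟩ := h3
        have h4 := congrArg (aeval x) hr
        rw [map_sub, aeval_C, map_mul, aeval_X] at h4
        rw [h4]
        exact Ideal.mul_mem_right _ _ hxm
      have h5 : algebraMap k A (q.coeff 0) ∈ maximalIdeal A := by
        have := sub_mem h1 h2
        simpa using this
      exact (mem_nonunits_iff.1 ((mem_maximalIdeal _).1 h5))
        ((isUnit_iff_ne_zero.2 hq0).map (algebraMap k A))
    have hxm0 : x ^ m = 0 := by
      have := hp
      rw [hq, map_mul, map_pow, aeval_X] at this
      exact (hu.mul_left_eq_zero).1 this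
    have hmn : n + 1 ≤ m := by
      by_contra hlt
      have : m ≤ n := by omega
      exact hn' (by rw [← Nat.sub_add_cancel this, pow_add, hxm0, mul_zero])
    obtain ⟨d, hd⟩ := Nat.exists_eq_add_of_le hmn
    have hp' : p = X ^ (n + 1) * (X ^ d * q) := by
      rw [← mul_assoc, ← pow_add, ← hd]; exact hq
    have e1 : aeval x (derivative p) = (((n + 1 : ℕ) : A) * aeval x (X ^ d * q)) * x ^ n := by
      rw [hp', derivative_mul, map_add, map_mul (aeval x) (X ^ (n + 1)), map_pow (aeval x) X,
        aeval_X, hn, zero_mul, add_zero, derivative_X_pow, map_mul, map_mul, map_pow (aeval x) X,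
        aeval_X, Nat.add_sub_cancel, aeval_C, map_natCast]
      ring
    rw [e1, mul_smul, hy, smul_zero]
  choose s hsp using hsurj
  have key : ∀ (a : A) (p : k[X]), aeval x p = a →
      aeval x (derivative (s a)) • y = aeval x (derivative p) • y := by
    intro a p hp
    have h1 := hker (s a - p) (by rw [map_sub, hsp, hp, sub_self])
    rw [map_sub, map_sub, sub_smul, sub_eq_zero] at h1
    exact h1
  let L : A →ₗ[k] M :=
    { toFun := fun a => aeval x (derivative (s a)) • y
      map_add' := by
        intro a b
        rw [key (a + b) (s a + s b) (by rw [map_add, hsp, hsp]), map_add, map_add, add_smul]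
      map_smul' := by
        intro c a
        rw [key (c • a) (c • s a) (by rw [map_smul, hsp]), derivative_smul, map_smul,
          smul_assoc]
        rfl }
  refine ⟨Derivation.mk' L ?_, ?_⟩
  · intro a b
    change aeval x (derivative (s (a * b))) • y = a • (aeval x (derivative (s b)) • y) +
      b • (aeval x (derivative (s a)) • y)
    rw [key (a * b) (s a * s b) (by rw [map_mul, hsp, hsp]), derivative_mul]
    simp only [map_add, map_mul, hsp, add_smul, mul_smul]
    rw [add_comm, smul_comm b]
  · change aeval x (derivative (s x)) • y = y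
    rw [key x X (by simp)]
    simp

end Pool.Agent.Lead.Der
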