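import Mathlib

set_option autoImplicit false

namespace Pool.Agent.Lead.Der

open IsLocalRing TensorProduct

/-- P3b -/
theorem free_of {A : Type} [CommRing A] [IsLocalRing A] [IsNoetherianRing A] (x : A)
    (hx : maximalIdeal A = Ideal.span {x}) (n : ℕ) (hn : x ^ (n + 1) = 0) (hn' : x ^ n ≠ 0)
    (M : Type) [AddCommGroup M] [Module A M] [Module.Finite A M]
    (h : ∀ y : M, x ^ n • y = 0 → ∃ m : M, y = x • m) : Module.Free A M := by
  have hxm : x ∈ maximalIdeal A := by rw [hx]; exact Ideal.mem_span_singleton_self x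
  have : Module.FinitePresentation A M := Module.finitePresentation_of_finite A M
  -- elements killed by `x` are divisible by `x ^ n`
  have hdiv : ∀ m : M, x • m = 0 → ∃ m' : M, m = x ^ n • m' := by
    intro m hm
    have key : ∀ j : ℕ, j ≤ n → ∃ m' : M, m = x ^ j • m' := by
      intro j
      induction j with
      | zero => intro _; exact ⟨m, by simp⟩
      | succ j ih =>
        intro hj
        obtain ⟨m', hm'⟩ := ih (by omega)
        have h1 : x ^ n • m' = 0 := by
          have h2 : x ^ n = x ^ (n - (j + 1)) * (x * x ^ j) := by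
            rw [← pow_succ', ← pow_add]; congr 1; omega
          rw [h2, mul_smul, mul_smul, ← hm', hm, smul_zero]
        obtain ⟨m'', hm''⟩ := h m' h1
        exact ⟨m'', by rw [hm', hm'', smul_smul, ← pow_succ]⟩
    exact key n le_rfl
  apply Module.free_of_maximalIdeal_rTensor_injective
  rw [injective_iff_map_eq_zero]
  intro t ht
  -- every element is `x ⊗ m`
  have hform : ∀ t : (maximalIdeal A) ⊗[A] M,
      ∃ m : M, t = (⟨x, hxm⟩ : maximalIdeal A) ⊗ₜ[A] m := by
    intro t
    induction t using TensorProduct.induction_on with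
    | zero => exact ⟨0, by simp⟩
    | tmul a m =>
      obtain ⟨a, ha⟩ := a
      have ha' := ha
      rw [hx, Ideal.mem_span_singleton'] at ha'
      obtain ⟨c, hc⟩ := ha'
      refine ⟨c • m, ?_⟩
      rw [← TensorProduct.smul_tmul]
      congr 1
      apply Subtype.ext
      simp [hc]
    | add a b ha hb =>
      obtain ⟨m₁, h₁⟩ := ha
      obtain ⟨m₂, h₂⟩ := hb
      exact ⟨m₁ + m₂, by rw [h₁, h₂, TensorProduct.tmul_add]⟩
  obtain ⟨m, rfl⟩ := hform t
  have hm : x • m = 0 := by
    have := congrArg (TensorProduct.lid A M) ht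
    simpa using this
  obtain ⟨m', hm'⟩ := hdiv m hm
  rw [hm', ← TensorProduct.smul_tmul]
  have : x ^ n • (⟨x, hxm⟩ : maximalIdeal A) = 0 := by
    apply Subtype.ext
    simp [← pow_succ, hn]
  rw [this, TensorProduct.zero_tmul]

end Pool.Agent.Lead.Der
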