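import Mathlib
import Pool.Agent.Lead.Der.Eul
set_option autoImplicit false
namespace Pool.Agent.Lead.Der
open IsLocalRing

/-- P4 -/
theorem surj_of_free {k A : Type} [Field k] [CharZero k] [CommRing A] [Algebra k A]
    [IsLocalRing A] [Module.Finite k A]
    (hres : ∀ a : A, ∃ c : k, a - algebraMap k A c ∈ maximalIdeal A) (E : Derivation k A A) (x : A)
    (hx : maximalIdeal A = Ideal.span {x}) (w : k) (hw : w ≠ 0) (hE : E x = w • x)
    (M : Type) [AddCommGroup M] [Module A M] [Module k M] [IsScalarTower k A M] [Module.Finite A M]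
    [Module.Free A M] : Function.Surjective (eul E M) := by
  classical
  -- nilpotency
  haveI : IsArtinianRing A := IsArtinianRing.of_finite k A
  have hnil : IsNilpotent x := by
    have h1 : x ∈ maximalIdeal A := by rw [hx]; exact Ideal.mem_span_singleton_self x
    have h2 := IsArtinianRing.isNilpotent_jacobson_bot (R := A)
    rw [IsLocalRing.jacobson_eq_maximalIdeal _ bot_ne_top] at h2
    obtain ⟨N, hN⟩ := h2
    refine ⟨N, ?_⟩
    have h3 : x ^ N ∈ maximalIdeal A ^ N := Ideal.pow_mem_pow h1 N
    rw [hN] at h3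
    exact h3
  set N := Nat.find hnil with hN
  have hN0 : x ^ N = 0 := Nat.find_spec hnil
  have hNpos : N ≠ 0 := by
    intro h0
    rw [h0, pow_zero] at hN0
    exact one_ne_zero hN0
  obtain ⟨n, hn⟩ := Nat.exists_eq_succ_of_ne_zero hNpos
  have hxn : x ^ n ≠ 0 := Nat.find_min hnil (by omega)
  rw [hn] at hN0
  -- generation
  have hgen : Algebra.adjoin k {x} = ⊤ := by
    have key : ∀ j : ℕ, ∀ a : A, ∃ b ∈ Algebra.adjoin k {x}, ∃ c : A, a - b = x ^ j * c := by
      intro j
      induction j with
      | zero => exact fun a => ⟨0, zero_mem _, a, by simp⟩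
      | succ j ih =>
        intro a
        obtain ⟨b, hb, c, hc⟩ := ih a
        obtain ⟨r, hr⟩ := hres c
        rw [hx, Ideal.mem_span_singleton] at hr
        obtain ⟨d, hd⟩ := hr
        refine ⟨b + x ^ j * algebraMap k A r, add_mem hb (mul_mem (pow_mem
          (Algebra.subset_adjoin (Set.mem_singleton x)) _) (Subalgebra.algebraMap_mem _ _)), d, ?_⟩
        have : a - (b + x ^ j * algebraMap k A r) = (a - b) - x ^ j * algebraMap k A r := by ring
        rw [this, hc, ← mul_sub, hd]
        ring
    rw [eq_top_iff]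
    intro a _
    obtain ⟨b, hb, c, hc⟩ := key (n + 1) a
    rw [hN0, zero_mul, sub_eq_zero] at hc
    rw [hc]; exact hb
  intro D
  -- D x is divisible by x
  have h1 : x ^ n • D x = 0 := by
    have h2 := D.leibniz_pow x (n + 1)
    rw [hN0, map_zero] at h2
    simp only [Nat.add_sub_cancel] at h2
    have h3 : ((n + 1 : ℕ) : k) • (x ^ n • D x) = 0 := by
      rw [Nat.cast_smul_eq_nsmul]
      exact h2.symm
    rcases smul_eq_zero.1 h3 with h | h
    · exact absurd h (by exact_mod_cast Nat.succ_ne_zero n)
    · exact h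
  obtain ⟨m', hm'⟩ : ∃ m' : M, D x = x • m' := by
    let b := Module.Free.chooseBasis A M
    have hdiv : ∀ i, ∃ c : A, b.repr (D x) i = x * c := by
      intro i
      have h2 : x ^ n * b.repr (D x) i = 0 := by
        have := congrArg (fun m => b.repr m i) h1
        simpa using this
      have h3 : b.repr (D x) i ∈ maximalIdeal A := by
        rw [mem_maximalIdeal, mem_nonunits_iff]
        intro hu
        exact hxn (hu.mul_left_eq_zero.1 h2)
      rw [hx, Ideal.mem_span_singleton] at h3
      exact h3
    choose c hc using hdiv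
    refine ⟨∑ i, c i • b i, ?_⟩
    rw [Finset.smul_sum]
    conv_lhs => rw [← b.sum_repr (D x)]
    refine Finset.sum_congr rfl fun i _ => ?_
    rw [hc i, mul_smul]
  refine ⟨w⁻¹ • m', ?_⟩
  apply Derivation.ext_of_adjoin_eq_top {x} hgen
  intro y hy
  rw [Set.mem_singleton_iff] at hy
  subst hy
  rw [eul_apply, hE, hm', smul_assoc, smul_algebra_smul_comm w⁻¹ y m', smul_smul,
    mul_inv_cancel₀ hw, one_smul]

end Pool.Agent.Lead.Der
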